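import Mathlib

/-! Difference operators of a representation, functions on a group, and products. -/

namespace Pool.Agent.Lib.NK89

variable {G : Type} [Group G]

section
variable {F V : Type} [Field F] [AddCommGroup V] [Module F V]

/-- the product of the operators `ρ g - 1` along a list -/
def D (ρ : Representation F G V) (l : List G) : Module.End F V := (l.map fun g => ρ g - 1).prod

@[simp] lemma D_nil (ρ : Representation F G V) : D ρ [] = 1 := rfl

lemma D_cons (ρ : Representation F G V) (g : G) (l : List G) :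
    D ρ (g :: l) = (ρ g - 1) * D ρ l := by simp [D]

lemma D_concat (ρ : Representation F G V) (g : G) (l : List G) :
    D ρ (l ++ [g]) = D ρ l * (ρ g - 1) := by simp [D]

lemma D_replicate (ρ : Representation F G V) (g : G) (n : ℕ) :
    D ρ (List.replicate n g) = (ρ g - 1) ^ n := by simp [D]

/-- vectors killed by all products of `n` differences along `S` -/
def Kl (ρ : Representation F G V) (S : Set G) : ℕ → Submodule F V
  | 0 => ⊥
  | n + 1 => ⨅ s ∈ S, (Kl ρ S n).comap (ρ s - 1)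

lemma mem_Kl_succ {ρ : Representation F G V} {S : Set G} {n : ℕ} {v : V} :
    v ∈ Kl ρ S (n + 1) ↔ ∀ s ∈ S, ρ s v - v ∈ Kl ρ S n := by
  simp [Kl, Submodule.mem_iInf]

lemma mem_Kl_zero {ρ : Representation F G V} {S : Set G} {v : V} : v ∈ Kl ρ S 0 ↔ v = 0 := by
  simp [Kl]

lemma mem_Kl {ρ : Representation F G V} {S : Set G} (n : ℕ) : ∀ v : V,
    v ∈ Kl ρ S n ↔ ∀ l : List G, l.length = n → (∀ g ∈ l, g ∈ S) → D ρ l v = 0 := by
  induction n with
  | zero =>
    intro v
    rw [mem_Kl_zero]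
    refine ⟨fun h l _ _ => by rw [h, map_zero], fun h => ?_⟩
    simpa using h [] rfl (by simp)
  | succ n ih =>
    intro v
    rw [mem_Kl_succ]
    constructor
    · intro h l hl hS
      rcases List.eq_nil_or_concat l with rfl | ⟨l', s, rfl⟩
      · simp at hl
      · rw [List.concat_eq_append] at hl hS ⊢
        rw [D_concat]
        exact (ih _).1 (h s (hS s (by simp))) l' (by simpa using hl)
          fun g hg => hS g (by simp [hg])
    · intro h s hs
      refine (ih _).2 fun l hl hS => ?_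
      have := h (l ++ [s]) (by simp [hl]) fun g hg => by
        rcases List.mem_append.1 hg with h1 | h1
        · exact hS g h1
        · rw [List.mem_singleton.1 h1]; exact hs
      rwa [D_concat] at this

lemma Kl_succ {ρ : Representation F G V} {S : Set G} (n : ℕ) : ∀ v : V,
    v ∈ Kl ρ S n → v ∈ Kl ρ S (n + 1) := by
  induction n with
  | zero => intro v hv; rw [mem_Kl_zero.1 hv]; exact zero_mem _
  | succ n ih => intro v hv; exact mem_Kl_succ.2 fun s hs => ih _ (mem_Kl_succ.1 hv s hs)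

lemma Kl_act {ρ : Representation F G V} {S : Set G} {n : ℕ} {v : V} (hv : v ∈ Kl ρ S n) {s : G}
    (hs : s ∈ S) : ρ s v ∈ Kl ρ S n := by
  have := add_mem (mem_Kl_succ.1 (Kl_succ n v hv) s hs) hv
  rwa [sub_add_cancel] at this

lemma mem_Kl_single {ρ : Representation F G V} {g : G} {n : ℕ} {v : V} :
    v ∈ Kl ρ {g} n ↔ ((ρ g - 1) ^ n) v = 0 := by
  rw [mem_Kl]
  constructor
  · intro h
    rw [← D_replicate]
    exact h _ (by simp) fun x hx => List.eq_of_mem_replicate hx
  · intro h l hl hS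
    rw [List.eq_replicate_iff.2 ⟨hl, hS⟩, D_replicate, h]

/-- vectors all of whose translates are killed by the powers `(ρ g - 1) ^ N g` -/
def Un (ρ : Representation F G V) (N : G → ℕ) : Submodule F V :=
  ⨅ g, ⨅ h, (Kl ρ {g} (N g)).comap (ρ h)

lemma mem_Un {ρ : Representation F G V} {N : G → ℕ} {v : V} :
    v ∈ Un ρ N ↔ ∀ g h, ρ h v ∈ Kl ρ {g} (N g) := by
  simp [Un, Submodule.mem_iInf]

lemma Un_act {ρ : Representation F G V} {N : G → ℕ} {v : V} (hv : v ∈ Un ρ N) (x : G) :
    ρ x v ∈ Un ρ N := by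
  refine mem_Un.2 fun g h => ?_
  have := mem_Un.1 hv g (h * x)
  rwa [map_mul] at this

variable {F' W : Type} [Field F'] [AddCommGroup W] [Module F' W]

lemma D_map {ρ : Representation F G V} {σ : Representation F' G W} (T : V →+ W)
    (hT : ∀ g v, T (ρ g v) = σ g (T v)) (l : List G) (v : V) : T (D ρ l v) = D σ l (T v) := by
  induction l with
  | nil => rfl
  | cons g l ih =>
    rw [D_cons, D_cons, Module.End.mul_apply, Module.End.mul_apply, ← ih]
    simp [hT]

lemma Kl_map {ρ : Representation F G V} {σ : Representation F' G W} (T : V →+ W)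
    (hT : ∀ g v, T (ρ g v) = σ g (T v)) {S : Set G} {n : ℕ} {v : V} (hv : v ∈ Kl ρ S n) :
    T v ∈ Kl σ S n :=
  (mem_Kl n _).2 fun l hl hS => by rw [← D_map T hT, (mem_Kl n _).1 hv l hl hS, map_zero]

lemma Un_map {ρ : Representation F G V} {σ : Representation F' G W} (T : V →+ W)
    (hT : ∀ g v, T (ρ g v) = σ g (T v)) {N : G → ℕ} {v : V} (hv : v ∈ Un ρ N) :
    T v ∈ Un σ N :=
  mem_Un.2 fun g h => by rw [← hT]; exact Kl_map T hT (mem_Un.1 hv g h)

end

/-- right translation of functions -/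
def Rt (F : Type) [Field F] (G : Type) [Group G] : Representation F G (G → F) where
  toFun g := LinearMap.funLeft F F fun x => x * g
  map_one' := by ext f x; simp [LinearMap.funLeft]
  map_mul' g h := by ext f x; simp [LinearMap.funLeft, mul_assoc]

@[simp] lemma Rt_apply {F : Type} [Field F] (g : G) (f : G → F) (x : G) :
    Rt F G g f x = f (x * g) := rfl

lemma Kl_mul {F : Type} [Field F] {S : Set G} (n : ℕ) : ∀ (a b : ℕ) (p q : G → F), a + b = n →
    p ∈ Kl (Rt F G) S a → q ∈ Kl (Rt F G) S b → p * q ∈ Kl (Rt F G) S n := by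
  induction n with
  | zero =>
    intro a b p q h hp hq
    obtain rfl : a = 0 := by omega
    rw [mem_Kl_zero.1 hp, zero_mul]; exact zero_mem _
  | succ n ih =>
    intro a b p q h hp hq
    rcases a with _ | a
    · rw [mem_Kl_zero.1 hp, zero_mul]; exact zero_mem _
    rcases b with _ | b
    · rw [mem_Kl_zero.1 hq, mul_zero]; exact zero_mem _
    refine mem_Kl_succ.2 fun s hs => ?_
    have e : Rt F G s (p * q) - p * q
        = (Rt F G s p - p) * Rt F G s q + p * (Rt F G s q - q) := by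
      funext x; simp only [Pi.sub_apply, Pi.add_apply, Pi.mul_apply, Rt_apply]; ring
    rw [e]
    exact add_mem (ih a (b + 1) _ _ (by omega) (mem_Kl_succ.1 hp s hs) (Kl_act hq hs))
      (ih (a + 1) b _ _ (by omega) hp (mem_Kl_succ.1 hq s hs))

lemma Un_sq {F : Type} [Field F] {N : G → ℕ} {p : G → F} (hp : p ∈ Un (Rt F G) N) :
    p * p ∈ Un (Rt F G) fun g => N g + N g :=
  mem_Un.2 fun g h => Kl_mul _ _ _ (Rt F G h p) (Rt F G h p) rfl (mem_Un.1 hp g h)
    (mem_Un.1 hp g h)

/-- rational functions seen in a field of characteristic zero -/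
def cst (k : Type) [Field k] [CharZero k] (G : Type) : (G → ℚ) →+ (G → k) where
  toFun f x := (f x : k)
  map_zero' := by funext x; simp
  map_add' f g := by funext x; simp

lemma cst_Rt (k : Type) [Field k] [CharZero k] (g : G) (f : G → ℚ) :
    cst k G (Rt ℚ G g f) = Rt k G g (cst k G f) := rfl

/-- rational matrix coefficients -/
lemma exists_coef {K V : Type} [Field K] [CharZero K] [AddCommGroup V] [Module K V]
    (ρ : Representation K G V) (μ : Module.Dual K V) (w : V) (hw : μ w ≠ 0) :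
    ∃ T : V →+ (G → ℚ), (∀ g v, T (ρ g v) = Rt ℚ G g (T v)) ∧ T w 1 ≠ 0 ∧
      ∀ v x, μ (ρ x v) = 0 → T v x = 0 := by
  obtain ⟨ν, hν⟩ := Module.Projective.exists_dual_ne_zero ℚ hw
  refine ⟨⟨⟨fun v x => ν (μ (ρ x v)), by funext x; simp⟩, fun a b => by funext x; simp⟩,
    fun g v => ?_, by simpa using hν, fun v x h => ?_⟩
  · funext x; simp
  · simp [h]

/-- The group has a unipotent representation that is not locally nilpotent, in terms of
rational functions on the group. -/
def NK (G : Type) [Group G] : Prop :=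
  ∃ (N : G → ℕ) (S : Finset G), ∀ n : ℕ, ∃ φ ∈ Un (Rt ℚ G) N, ∃ l : List G, l.length = n ∧
    (∀ g ∈ l, g ∈ S) ∧ D (Rt ℚ G) l φ 1 ≠ 0

lemma witness {K V : Type} [Field K] [CharZero K] [AddCommGroup V] [Module K V]
    (ρ : Representation K G V) {N : G → ℕ} {v : V} (hv : v ∈ Un ρ N) {l : List G}
    (hl : D ρ l v ≠ 0) : ∃ φ ∈ Un (Rt ℚ G) N, D (Rt ℚ G) l φ 1 ≠ 0 := by
  obtain ⟨μ, hμ⟩ := Module.Projective.exists_dual_ne_zero K hl
  obtain ⟨T, hT, h1, -⟩ := exists_coef ρ μ _ hμ
  exact ⟨T v, Un_map T hT hv, by rwa [← D_map T hT]⟩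

lemma nk_of_rep {K V : Type} [Field K] [CharZero K] [AddCommGroup V] [Module K V]
    (ρ : Representation K G V) (hρ : ∀ g, IsNilpotent (ρ g - 1)) (S : Finset G)
    (hS : ∀ n : ℕ, ∃ l : List G, l.length = n ∧ (∀ g ∈ l, g ∈ S) ∧ D ρ l ≠ 0) : NK G := by
  choose N hN using hρ
  refine ⟨N, S, fun n => ?_⟩
  obtain ⟨l, h1, h2, h3⟩ := hS n
  obtain ⟨v, hv⟩ : ∃ v, D ρ l v ≠ 0 := by
    by_contra h
    push Not at h
    exact h3 (LinearMap.ext h)
  obtain ⟨φ, a1, a2⟩ := witness ρ (N := N) (v := v)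
    (mem_Un.2 fun g h => mem_Kl_single.2 (by rw [hN g]; rfl)) hv
  exact ⟨φ, a1, l, h1, h2, a2⟩

lemma rep_of_nk (K : Type) [Field K] [CharZero K] (h : NK G) :
    ∃ (V : Type) (_ : AddCommGroup V) (_ : Module K V) (ρ : Representation K G V),
      (∀ g, IsNilpotent (ρ g - 1)) ∧ ∃ S : Finset G, ∀ n : ℕ, ∃ l : List G, l.length = n ∧
        (∀ g ∈ l, g ∈ S) ∧ D ρ l ≠ 0 := by
  obtain ⟨N, S, h⟩ := h
  let ρ : Representation K G (Un (Rt K G) N) :=
    (Rt K G).subrepresentation (Un (Rt K G) N) fun g v hv => Un_act hv g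
  let T : Un (Rt K G) N →+ (G → K) := (Un (Rt K G) N).subtype.toAddMonoidHom
  have hT : ∀ g v, T (ρ g v) = Rt K G g (T v) := fun g v => rfl
  refine ⟨_, inferInstance, inferInstance, ρ, fun g => ⟨N g, LinearMap.ext fun v => ?_⟩, S,
    fun n => ?_⟩
  · refine Subtype.ext ?_
    have h1 := D_map T hT (List.replicate (N g) g) v
    rw [D_replicate, D_replicate] at h1
    have h2 := mem_Kl_single.1 (mem_Un.1 v.2 g 1)
    rw [map_one] at h2
    exact h1.trans h2
  · obtain ⟨φ, h1, l, h2, h3, h4⟩ := h n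
    refine ⟨l, h2, h3, fun h0 => h4 ?_⟩
    have h5 := D_map T hT l ⟨cst K G φ, Un_map (cst K G) (cst_Rt K) h1⟩
    rw [h0, LinearMap.zero_apply, map_zero] at h5
    have h6 := D_map (cst K G) (cst_Rt K) l φ
    have h7 : cst K G (D (Rt ℚ G) l φ) 1 = 0 := by
      rw [h6]; exact (congrFun h5 1).symm
    have h8 : ((D (Rt ℚ G) l φ 1 : ℚ) : K) = 0 := h7
    exact_mod_cast h8

end Pool.Agent.Lib.NK89
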