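import Pool.Agent.Lib.NK89.Main
import Pool.Agent.Lib.MP_77f37b_al.GS

/-! The free group of rank two has a unipotent representation that is not locally nilpotent. -/

namespace Pool.Agent.Lib.NK89

/-- a model of the functions on words of length at most `d`, with the shift operators -/
structure Model (d : ℕ) (V : Type) [AddCommGroup V] [Module ℚ V] where
  c : V →ₗ[ℚ] (List Bool → ℚ)
  X : List Bool → Module.End ℚ V
  inj : ∀ v, (∀ m, c v m = 0) → v = 0
  app : ∀ w v m, c (X w v) m = c v (m ++ w)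
  top : ∀ v m, d < m.length → c v m = 0
  sur : ∀ φ : List Bool → ℚ, (∀ m, d < m.length → φ m = 0) → ∃ v, c v = φ

def Y (d : ℕ) : Submodule ℚ (List Bool → ℚ) where
  carrier := {φ | ∀ m, d < m.length → φ m = 0}
  add_mem' := fun ha hb m hm => by simp [ha m hm, hb m hm]
  zero_mem' := fun _ _ => rfl
  smul_mem' := fun c a ha m hm => by simp [ha m hm]

lemma exists_model (d : ℕ) :
    ∃ (V : Type) (_ : AddCommGroup V) (_ : Module ℚ V), Nonempty (Model d V) :=
  ⟨Y d, inferInstance, inferInstance, ⟨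
    { c := (Y d).subtype
      X := fun w =>
        { toFun := fun φ => ⟨fun m => φ.1 (m ++ w), fun m hm => φ.2 _ (by simp; omega)⟩
          map_add' := fun _ _ => rfl
          map_smul' := fun _ _ => rfl }
      inj := fun _ h => Subtype.ext (funext h)
      app := fun _ _ _ => rfl
      top := fun v => v.2
      sur := fun φ h => ⟨⟨φ, h⟩, rfl⟩ }⟩⟩

variable {d : ℕ} {V : Type} [AddCommGroup V] [Module ℚ V] {M : Model d V}

lemma Model.ext' (M : Model d V) {a b : Module.End ℚ V}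
    (h : ∀ v m, M.c (a v) m = M.c (b v) m) : a = b :=
  LinearMap.ext fun v => sub_eq_zero.1 (M.inj _ fun m => by
    rw [map_sub, Pi.sub_apply, h, sub_self])

lemma X_mul (w v : List Bool) : M.X w * M.X v = M.X (w ++ v) :=
  M.ext' fun φ m => by simp only [Module.End.mul_apply, M.app, List.append_assoc]

lemma X_nil : M.X [] = 1 := M.ext' fun φ m => by simp [M.app]

def C (M : Model d V) (j : ℕ) : Submodule ℚ (Module.End ℚ V) :=
  Submodule.span ℚ (M.X '' {w | j ≤ w.length})

lemma X_mem {j : ℕ} {w : List Bool} (h : j ≤ w.length) : M.X w ∈ C M j :=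
  Submodule.subset_span ⟨w, h, rfl⟩

lemma C_mul {i j : ℕ} {a b : Module.End ℚ V} (ha : a ∈ C M i) (hb : b ∈ C M j) :
    a * b ∈ C M (i + j) := by
  have := Submodule.mul_mem_mul ha hb
  rw [C, C, Submodule.span_mul_span] at this
  refine Submodule.span_le.2 ?_ this
  rintro _ ⟨_, ⟨w, hw, rfl⟩, _, ⟨v, hv, rfl⟩, rfl⟩
  show M.X w * M.X v ∈ C M (i + j)
  rw [X_mul]
  exact X_mem (by rw [List.length_append]; exact Nat.add_le_add hw hv)

lemma one_mem_C : (1 : Module.End ℚ V) ∈ C M 0 := by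
  rw [← X_nil (M := M)]; exact X_mem (Nat.zero_le _)

lemma C_le {j : ℕ} {a : Module.End ℚ V} (ha : a ∈ C M j) : a ∈ C M 0 :=
  Submodule.span_mono (Set.image_mono fun _ _ => Nat.zero_le _) ha

lemma C_pow {a : Module.End ℚ V} (ha : a ∈ C M 1) (n : ℕ) : a ^ n ∈ C M n := by
  induction n with
  | zero => exact one_mem_C
  | succ n ih => rw [pow_succ]; exact C_mul ih ha

lemma C_top {a : Module.End ℚ V} (ha : a ∈ C M (d + 1)) : a = 0 := by
  refine (Submodule.mem_bot ℚ).1 (Submodule.span_le.2 ?_ ha)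
  rintro _ ⟨w, hw, rfl⟩
  refine (Submodule.mem_bot ℚ).2 ?_
  have hw' : d + 1 ≤ w.length := hw
  refine M.ext' fun φ m => ?_
  rw [M.app, LinearMap.zero_apply, map_zero]
  exact M.top _ _ (by rw [List.length_append]; omega)

lemma ring_id {A : Type} [Ring A] (a b : A) :
    a * b - 1 = (a - 1) * (b - 1) + (a - 1) + (b - 1) := by noncomm_ring

lemma C_mul_one {a b : Module.End ℚ V} (ha : a - 1 ∈ C M 1) (hb : b - 1 ∈ C M 1) :
    a * b - 1 ∈ C M 1 := by
  have h1 : (a - 1) * (b - 1) ∈ C M 1 := C_mul (i := 1) (j := 0) ha (C_le hb)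
  rw [ring_id a b]
  exact add_mem (add_mem h1 ha) hb

def U (M : Model d V) : Subgroup (Module.End ℚ V)ˣ where
  carrier := {u | (u : Module.End ℚ V) - 1 ∈ C M 1}
  one_mem' := by
    show (1 : Module.End ℚ V) - 1 ∈ C M 1
    rw [sub_self]; exact zero_mem _
  mul_mem' := fun ha hb => C_mul_one ha hb
  inv_mem' := by
    intro u hu
    have hu : (u : Module.End ℚ V) - 1 ∈ C M 1 := hu
    have ha : 1 - (u : Module.End ℚ V) ∈ C M 1 := by
      rw [← neg_sub]; exact neg_mem hu
    have h1 := mul_neg_geom_sum (1 - (u : Module.End ℚ V)) (d + 1)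
    rw [C_top (C_pow ha (d + 1)), sub_zero, sub_sub_cancel] at h1
    have h2 : ((u⁻¹ : (Module.End ℚ V)ˣ) : Module.End ℚ V) ∈ C M 0 := by
      rw [Units.inv_eq_of_mul_eq_one_right h1]
      exact Submodule.sum_mem _ fun j _ => C_le (C_pow ha j)
    have e : ((u⁻¹ : (Module.End ℚ V)ˣ) : Module.End ℚ V) - 1
        = (1 - u) * (u⁻¹ : (Module.End ℚ V)ˣ) := by
      rw [sub_mul, one_mul, Units.mul_inv]
    show ((u⁻¹ : (Module.End ℚ V)ˣ) : Module.End ℚ V) - 1 ∈ C M 1
    rw [e]
    exact C_mul (i := 1) (j := 0) ha h2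

lemma exists_gen (M : Model d V) (b : Bool) :
    ∃ u : U M, ((u : (Module.End ℚ V)ˣ) : Module.End ℚ V) = 1 + M.X [b] := by
  have h : M.X [b] ∈ C M 1 := X_mem (by simp)
  obtain ⟨u, hu⟩ := IsNilpotent.isUnit_one_add ⟨d + 1, C_top (C_pow h _)⟩
  exact ⟨⟨u, by show _ ∈ C M 1; rwa [hu, add_sub_cancel_left]⟩, hu⟩

lemma coef {N : ℕ} {a : Module.End ℚ V} (ha : a ∈ C M N) :
    ∃ θ : List Bool → ℚ, (∀ w, w.length < N → θ w = 0) ∧ ∀ (φ : V) (u : List Bool),
      M.c (a φ) u = ∑ n ∈ Finset.range (d + 1), ∑ w ∈ MP77.W n, θ w * M.c φ (u ++ w) := by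
  induction ha using Submodule.span_induction with
  | mem x hx =>
    obtain ⟨v, hv, rfl⟩ := hx
    have hv' : N ≤ v.length := hv
    refine ⟨fun w => if w = v then 1 else 0, fun w hw => if_neg (by rintro rfl; omega),
      fun φ u => ?_⟩
    simp only [M.app, ite_mul, one_mul, zero_mul, Finset.sum_ite_eq', MP77.mem_W,
      Finset.sum_ite_eq, Finset.mem_range]
    split_ifs with h
    · rfl
    · exact M.top _ _ (by rw [List.length_append]; omega)
  | zero => exact ⟨0, fun _ _ => rfl, fun φ u => by simp⟩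
  | add x y _ _ hx hy =>
    obtain ⟨a, a1, a2⟩ := hx
    obtain ⟨b, b1, b2⟩ := hy
    refine ⟨a + b, fun w hw => by simp [a1 w hw, b1 w hw], fun φ u => ?_⟩
    simp only [LinearMap.add_apply, map_add, Pi.add_apply, a2, b2, add_mul,
      Finset.sum_add_distrib]
  | smul c x _ hx =>
    obtain ⟨a, a1, a2⟩ := hx
    refine ⟨c • a, fun w hw => by simp [a1 w hw], fun φ u => ?_⟩
    simp only [LinearMap.smul_apply, map_smul, Pi.smul_apply, a2, smul_eq_mul,
      Finset.mul_sum, mul_assoc]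

lemma num (N : ℕ) : ∑ n ∈ Finset.range N, ((n + 1 - 20 : ℕ) : ℝ) * (3 / 2 : ℝ)⁻¹ ^ n
    ≤ 2 - 3 / 2 := by
  have h1 : ∀ n : ℕ, ((n + 1 - 20 : ℕ) : ℝ) * (3 / 2 : ℝ)⁻¹ ^ n ≤ 1 / 12 * (5 / 6) ^ n := by
    intro n
    by_cases h : n < 19
    · rw [Nat.sub_eq_zero_of_le (by omega)]
      simp only [Nat.cast_zero, zero_mul]
      positivity
    obtain ⟨t, rfl⟩ := Nat.exists_eq_add_of_le (not_lt.1 h)
    have e : (5 / 6 : ℝ) ^ (19 + t) = (5 / 4) ^ 19 * (1 + 1 / 4) ^ t * (3 / 2 : ℝ)⁻¹ ^ (19 + t) := by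
      rw [show (1 + 1 / 4 : ℝ) = 5 / 4 by norm_num, ← pow_add, ← mul_pow]; norm_num
    have h2 := one_add_mul_le_pow (a := (1 / 4 : ℝ)) (by norm_num) t
    have h3 : (0 : ℝ) ≤ t := Nat.cast_nonneg t
    rw [show 19 + t + 1 - 20 = t by omega, e, ← mul_assoc, ← mul_assoc]
    refine mul_le_mul_of_nonneg_right ?_ (by positivity)
    nlinarith
  refine (Finset.sum_le_sum fun n _ => h1 n).trans ?_
  rw [← Finset.mul_sum]
  have h2 := (summable_geometric_of_lt_one (r := (5 / 6 : ℝ)) (by norm_num)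
    (by norm_num)).sum_le_tsum (Finset.range N) fun n _ => by positivity
  rw [tsum_geometric_of_lt_one (by norm_num) (by norm_num)] at h2
  norm_num at h2 ⊢
  linarith

theorem nk_free : NK (FreeGroup (Fin 2)) := by
  classical
  obtain ⟨F, hF⟩ := exists_surjective_nat (FreeGroup (Fin 2))
  let lt : Bool → FreeGroup (Fin 2) := fun b => FreeGroup.of (if b then 0 else 1)
  refine ⟨fun g => Function.surjInv hF g + 21, {lt true, lt false}, fun d => ?_⟩
  obtain ⟨V, _, _, ⟨M⟩⟩ := exists_model d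
  choose gen hgen using exists_gen M
  let ρ : Representation ℚ (FreeGroup (Fin 2)) V :=
    (Units.coeHom _).comp ((U M).subtype.comp (FreeGroup.lift fun i => gen (decide (i = 0))))
  have hρ : ∀ g, ρ g - 1 ∈ C M 1 := fun g =>
    (FreeGroup.lift (fun i : Fin 2 => gen (decide (i = 0))) g).2
  have hlt : ∀ b, ρ (lt b) - 1 = M.X [b] := by
    intro b
    have : ρ (lt b) = 1 + M.X [b] := by
      rw [← hgen]
      cases b <;> simp [ρ, lt]
    rw [this, add_sub_cancel_left]
  have hD : ∀ w : List Bool, D ρ (w.map lt) = M.X w := by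
    intro w
    induction w with
    | nil => exact X_nil.symm
    | cons b w ih => rw [List.map_cons, D_cons, ih, hlt, X_mul]; rfl
  choose θ h1 h2 using fun i : ℕ => coef (C_pow (hρ (F i)) (i + 21))
  obtain ⟨φ, hφ, hne⟩ := MP77.GS (K := ℚ) (fun n => n - 20) (fun _ i => θ i) d
    (β := 3 / 2) (by norm_num) (num d)
  obtain ⟨w, hw⟩ := Function.ne_iff.1 hne
  have hl : w.length = d := by
    by_contra h
    exact hw (hφ.1 w h)
  obtain ⟨v, rfl⟩ := M.sur φ fun m hm => hφ.1 m (by omega)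
  have key : ∀ i, ∀ a ∈ C M 0, ((ρ (F i) - 1) ^ (i + 21)) (a v) = 0 := by
    intro i a ha
    induction ha using Submodule.span_induction with
    | mem x hx =>
      obtain ⟨t, -, rfl⟩ := hx
      refine M.inj _ fun u => ?_
      rw [h2]
      simp only [M.app]
      refine Finset.sum_eq_zero fun n _ => ?_
      by_cases hn : n < i + 21
      · exact Finset.sum_eq_zero fun m hm => by
          rw [h1 i m (by rw [(MP77.mem_W _ _).1 hm]; exact hn), zero_mul]
      · obtain ⟨j, rfl⟩ : ∃ j, n = j + 1 := ⟨n - 1, by omega⟩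
        exact hφ.2 j i u t (by show i < j + 1 - 20; omega)
    | zero => simp
    | add x y _ _ hx hy => rw [LinearMap.add_apply, map_add, hx, hy, add_zero]
    | smul c x _ hx => rw [LinearMap.smul_apply, map_smul, hx, smul_zero]
  obtain ⟨ψ, a1, a2⟩ := witness ρ (N := fun g => Function.surjInv hF g + 21) (v := v)
    (l := w.map lt) (mem_Un.2 fun g h => mem_Kl_single.2 (by
      have h3 : ρ h ∈ C M 0 := by
        have := add_mem (C_le (hρ h)) one_mem_C
        rwa [sub_add_cancel] at this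
      have h4 := key (Function.surjInv hF g) _ h3
      rwa [Function.surjInv_eq hF g] at h4))
    (by
      rw [hD]
      intro h
      exact hw (by simpa [M.app] using congrFun (congrArg M.c h) []))
  refine ⟨ψ, a1, w.map lt, by simpa using hl, fun g hg => ?_, a2⟩
  obtain ⟨b, -, rfl⟩ := List.mem_map.1 hg
  cases b <;> simp

end Pool.Agent.Lib.NK89
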