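import Pool.Agent.Lib.NK89.Pos

/-! From a unipotent representation that is not locally nilpotent to an irreducible one. -/

namespace Pool.Agent.Lib.NK89

open MonoidAlgebra

variable {G : Type} [Group G] {k : Type} [Field k]

/-- there is a nontrivial irreducible unipotent representation -/
def Irr (k : Type) [Field k] (G : Type) [Group G] : Prop :=
  ∃ (V : Type) (_ : AddCommGroup V) (_ : Module k V) (ρ : Representation k G V), Nontrivial V ∧
    (∀ W : Submodule k V, (∀ g, ∀ v ∈ W, ρ g v ∈ W) → W = ⊥ ∨ W = ⊤) ∧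
    (∀ g, IsNilpotent (ρ g - 1)) ∧ ¬ ∀ g, ρ g = 1

noncomputable def ee (k : Type) [Field k] (l : List G) : MonoidAlgebra k G :=
  (l.map fun g => of k G g - 1).prod

lemma ee_cons (g : G) (l : List G) : ee k (g :: l) = (of k G g - 1) * ee k l := by simp [ee]

lemma alg_ee {V : Type} [AddCommGroup V] [Module k V] (ρ : Representation k G V) (l : List G) :
    ρ.asAlgebraHom (ee k l) = D ρ l := by
  induction l with
  | nil => simp [ee]
  | cons g l ih => rw [ee_cons, D_cons, map_mul, ih, map_sub, map_one, ρ.asAlgebraHom_of]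

noncomputable def repM (k : Type) [Field k] (G : Type) [Group G] (Q : Type) [AddCommGroup Q]
    [Module k Q] [Module (MonoidAlgebra k G) Q] [IsScalarTower k (MonoidAlgebra k G) Q] :
    Representation k G Q :=
  (Algebra.lsmul k k Q : MonoidAlgebra k G →ₐ[k] Module.End k Q).toRingHom.toMonoidHom.comp
    (of k G)

section
variable {Q : Type} [AddCommGroup Q] [Module k Q] [Module (MonoidAlgebra k G) Q]
  [IsScalarTower k (MonoidAlgebra k G) Q]

lemma repM_apply (g : G) (q : Q) : repM k G Q g q = of k G g • q := rfl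

lemma D_repM (l : List G) (q : Q) : D (repM k G Q) l q = ee k l • q := by
  induction l with
  | nil => simp [ee]
  | cons g l ih =>
    rw [D_cons, Module.End.mul_apply, ih, ee_cons, mul_smul, sub_smul, one_smul,
      LinearMap.sub_apply, repM_apply, Module.End.one_apply]

lemma single_eq (g : G) (r : k) : (single g r : MonoidAlgebra k G) = r • of k G g := by simp

lemma simple_out [Module.Finite (MonoidAlgebra k G) Q] [Nontrivial Q] (N : G → ℕ)
    (hnil : ∀ (g : G) (q : Q), ee k (List.replicate (N g) g) • q = 0)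
    (hω : ∀ P : Submodule (MonoidAlgebra k G) Q, (∀ (g : G) (q : Q), of k G g • q - q ∈ P) →
      P = ⊤) : Irr k G := by
  obtain ⟨P, hP⟩ := IsCoatomic.exists_coatom (Submodule (MonoidAlgebra k G) Q)
  have hs : IsSimpleModule (MonoidAlgebra k G) (Q ⧸ P) := isSimpleModule_iff_isCoatom.2 hP
  refine ⟨Q ⧸ P, inferInstance, inferInstance, repM k G (Q ⧸ P),
    IsSimpleModule.nontrivial (MonoidAlgebra k G) _, fun W hW => ?_, fun g => ⟨N g, ?_⟩,
    fun h => hP.1 (hω P fun g q => ?_)⟩
  · let W' : Submodule (MonoidAlgebra k G) (Q ⧸ P) :=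
      { carrier := W
        add_mem' := fun ha hb => W.add_mem ha hb
        zero_mem' := W.zero_mem
        smul_mem' := by
          intro a v hv
          induction a using MonoidAlgebra.induction_linear with
          | zero => rw [zero_smul]; exact W.zero_mem
          | add a b ha hb => rw [add_smul]; exact W.add_mem ha hb
          | single x r =>
            rw [single_eq, smul_assoc]
            exact W.smul_mem r (hW x v hv) }
    rcases eq_bot_or_eq_top W' with h | h
    · left
      rw [eq_bot_iff]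
      intro v hv
      have : v ∈ W' := hv
      rw [h] at this
      simpa using this
    · right
      rw [eq_top_iff]
      intro v _
      have : v ∈ W' := by rw [h]; trivial
      exact this
  · refine LinearMap.ext fun v => ?_
    obtain ⟨q, rfl⟩ := Submodule.Quotient.mk_surjective P v
    rw [← D_replicate, D_repM, ← Submodule.Quotient.mk_smul, hnil]
    rfl
  · rw [← Submodule.Quotient.eq, Submodule.Quotient.mk_smul, ← repM_apply, h g]
    rfl

end

/-- the left ideal generated by the elements `(g - 1) ^ N g * h` -/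
noncomputable def II (k : Type) [Field k] (N : G → ℕ) :
    Submodule (MonoidAlgebra k G) (MonoidAlgebra k G) :=
  Submodule.span _ (Set.range fun x : G × G => ee k (List.replicate (N x.1) x.1) * of k G x.2)

lemma mul_mem_II (N : G → ℕ) (g : G) (a : MonoidAlgebra k G) :
    ee k (List.replicate (N g) g) * a ∈ II k N := by
  induction a using MonoidAlgebra.induction_linear with
  | zero => rw [mul_zero]; exact zero_mem _
  | add a b ha hb => rw [mul_add]; exact add_mem ha hb
  | single x r =>
    rw [single_eq, mul_smul_comm]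
    exact Submodule.smul_of_tower_mem _ r (Submodule.subset_span ⟨(g, x), rfl⟩)

lemma II_ann {N : G → ℕ} {f : G → k} (hf : f ∈ Un (Rt k G) N) {a : MonoidAlgebra k G}
    (ha : a ∈ II k N) : (Rt k G).asAlgebraHom a f = 0 := by
  induction ha using Submodule.span_induction with
  | mem x hx =>
    obtain ⟨⟨g, h⟩, rfl⟩ := hx
    rw [map_mul, alg_ee, D_replicate, Representation.asAlgebraHom_of, Module.End.mul_apply]
    exact mem_Kl_single.1 (mem_Un.1 hf g h)
  | zero => simp
  | add x y _ _ hx hy => rw [map_add, LinearMap.add_apply, hx, hy, add_zero]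
  | smul c x _ hx => rw [smul_eq_mul, map_mul, Module.End.mul_apply, hx, map_zero]

lemma quot_nil {N : G → ℕ} {L : Submodule (MonoidAlgebra k G) (MonoidAlgebra k G)}
    (hL : II k N ≤ L) (g : G) (q : MonoidAlgebra k G ⧸ L) :
    ee k (List.replicate (N g) g) • q = 0 := by
  obtain ⟨a, rfl⟩ := Submodule.Quotient.mk_surjective L q
  rw [← Submodule.Quotient.mk_smul, Submodule.Quotient.mk_eq_zero]
  exact hL (mul_mem_II N g a)

lemma exists_supp (y : MonoidAlgebra k G) : ∃ B : Finset G, ∀ p : G → k, (∀ x ∈ B, p x = 0) →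
    (Rt k G).asAlgebraHom y p 1 = 0 := by
  classical
  induction y using MonoidAlgebra.induction_linear with
  | zero => exact ⟨∅, fun p _ => by simp⟩
  | add a b ha hb =>
    obtain ⟨A, hA⟩ := ha
    obtain ⟨B, hB⟩ := hb
    refine ⟨A ∪ B, fun p hp => ?_⟩
    rw [map_add, LinearMap.add_apply, Pi.add_apply,
      hA p fun x hx => hp x (Finset.mem_union_left _ hx),
      hB p fun x hx => hp x (Finset.mem_union_right _ hx), add_zero]
  | single x r =>
    refine ⟨{x}, fun p hp => ?_⟩
    simp [hp x]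

variable [CharZero k]

lemma caseB {S : Finset G} (hS : S.Nonempty) {N : G → ℕ}
    (h : ∀ B : Finset G, ∃ (d : ℕ) (φ : G → ℚ), φ ∈ Un (Rt ℚ G) N ∧ φ ∈ Kl (Rt ℚ G) S d ∧
      (∀ x ∈ B, φ x = 0) ∧ ∃ x ∈ Submonoid.closure (S : Set G), φ x ≠ 0) : Irr k G := by
  have hc : (S.card : k) ≠ 0 := by exact_mod_cast hS.card_pos.ne'
  obtain ⟨u, hu⟩ : ∃ u : MonoidAlgebra k G, u = S.card - ∑ s ∈ S, (of k G s - 1) := ⟨_, rfl⟩
  obtain ⟨L, hL⟩ : ∃ L : Submodule (MonoidAlgebra k G) (MonoidAlgebra k G),
      L = II k (fun g => N g + N g) ⊔ Submodule.span _ {u} := ⟨_, rfl⟩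
  have hne : L ≠ ⊤ := by
    intro h1
    have h2 : (1 : MonoidAlgebra k G) ∈ L := by rw [h1]; trivial
    rw [hL] at h2
    obtain ⟨i, hi, z, hz, e⟩ := Submodule.mem_sup.1 h2
    obtain ⟨y, rfl⟩ := Submodule.mem_span_singleton.1 hz
    obtain ⟨B, hB⟩ := exists_supp y
    obtain ⟨d, φ, a1, a2, a3, x, hx, a4⟩ := h B
    obtain ⟨f, b1, b2, b3⟩ := resolvent hS (p := φ * φ) (fun x => mul_self_nonneg _) (Un_sq a1)
      (Kl_mul _ d d φ φ rfl a2 a2) hx (mul_self_pos.2 a4)
    have c1 := II_ann (Un_map (cst k G) (cst_Rt k) b1) hi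
    have c2 : (Rt k G).asAlgebraHom u (cst k G f) = fun t => (S.card : k) * cst k G (φ * φ) t := by
      funext t
      have := congrArg (fun r : ℚ => (r : k)) (b3 t)
      simp only [hu, map_sub, map_sum, map_natCast, map_one, Representation.asAlgebraHom_of,
        LinearMap.sub_apply, LinearMap.sum_apply, Module.End.natCast_apply, Module.End.one_apply,
        Pi.sub_apply, Finset.sum_apply, Rt_apply, nsmul_eq_mul]
      push_cast at this
      exact this
    have c3 := congrArg (fun a => (Rt k G).asAlgebraHom a (cst k G f) 1) e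
    simp only [map_add, LinearMap.add_apply, Pi.add_apply, smul_eq_mul, map_mul,
      Module.End.mul_apply, c1, c2, map_one, Module.End.one_apply, Pi.zero_apply, zero_add] at c3
    rw [hB _ fun t ht => by simp [cst, a3 t ht]] at c3
    have c4 : ((f 1 : ℚ) : k) = 0 := c3.symm
    exact b2 (by exact_mod_cast c4)
  have : Nontrivial (MonoidAlgebra k G ⧸ L) := Submodule.Quotient.nontrivial_iff.2 hne
  refine simple_out (Q := MonoidAlgebra k G ⧸ L) (fun g => N g + N g)
    (quot_nil (hL ▸ le_sup_left)) fun P hP => ?_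
  have h0 : u • (Submodule.Quotient.mk 1 : MonoidAlgebra k G ⧸ L) = 0 := by
    rw [← Submodule.Quotient.mk_smul, Submodule.Quotient.mk_eq_zero, smul_eq_mul, mul_one, hL]
    exact Submodule.mem_sup_right (Submodule.mem_span_singleton_self u)
  have h1 : (Submodule.Quotient.mk 1 : MonoidAlgebra k G ⧸ L) ∈ P := by
    generalize (Submodule.Quotient.mk 1 : MonoidAlgebra k G ⧸ L) = v at h0 ⊢
    rw [hu, sub_smul, sub_eq_zero, Finset.sum_smul, Nat.cast_smul_eq_nsmul,
      ← Nat.cast_smul_eq_nsmul k] at h0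
    have h2 : (S.card : k) • v ∈ P := by
      rw [h0]
      exact Submodule.sum_mem _ fun s _ => by rw [sub_smul, one_smul]; exact hP s v
    have h3 := P.smul_of_tower_mem (S.card : k)⁻¹ h2
    rwa [inv_smul_smul₀ hc] at h3
  rw [eq_top_iff]
  intro q _
  obtain ⟨a, rfl⟩ := Submodule.Quotient.mk_surjective L q
  have := P.smul_mem a h1
  rwa [← Submodule.Quotient.mk_smul, smul_eq_mul, mul_one] at this

omit [Group G] in
lemma finite_words (S : Finset G) (n : ℕ) :
    {l : List G | l.length = n ∧ ∀ g ∈ l, g ∈ S}.Finite := by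
  refine ((List.finite_length_eq S n).image (List.map Subtype.val)).subset ?_
  rintro l ⟨h1, h2⟩
  exact ⟨l.attachWith _ h2, by simpa using h1, by simp⟩

theorem irr_of_nk (k : Type) [Field k] [CharZero k] (h : NK G) : Irr k G := by
  obtain ⟨N, S, h⟩ := h
  have hS : S.Nonempty := by
    obtain ⟨-, -, l, h1, h2, -⟩ := h 1
    obtain ⟨g, rfl⟩ := List.length_eq_one_iff.1 h1
    exact ⟨g, h2 g (by simp)⟩
  let Q := MonoidAlgebra k G ⧸ II k N
  let v0 : Q := Submodule.Quotient.mk 1
  let M : ℕ → Submodule (MonoidAlgebra k G) Q := fun n =>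
    Submodule.span _ ((fun l => ee k l • v0) '' {l : List G | l.length = n ∧ ∀ g ∈ l, g ∈ S})
  have hM : ∀ l : List G, (∀ g ∈ l, g ∈ S) → ee k l • v0 ∈ M l.length := fun l hl =>
    Submodule.subset_span ⟨l, ⟨rfl, hl⟩, rfl⟩
  have hanti : ∀ n, M (n + 1) ≤ M n := by
    intro n
    refine Submodule.span_le.2 ?_
    rintro _ ⟨l, ⟨h1, h2⟩, rfl⟩
    obtain ⟨g, l', rfl⟩ := List.exists_cons_of_length_eq_add_one h1
    obtain rfl : l'.length = n := by simpa using h1
    show ee k (g :: l') • v0 ∈ M l'.length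
    rw [ee_cons, mul_smul]
    exact Submodule.smul_mem _ _ (hM l' fun x hx => h2 x (List.mem_cons_of_mem _ hx))
  by_cases hA : ∃ n, M n ≤ M (n + 1)
  · obtain ⟨n, hn⟩ := hA
    have : Module.Finite (MonoidAlgebra k G) (M n) :=
      Module.Finite.span_of_finite _ ((finite_words S n).image _)
    have : Nontrivial (M n) := by
      obtain ⟨φ, a1, l, rfl, a3, a4⟩ := h n
      refine ⟨⟨ee k l • v0, hM l a3⟩, 0, fun h0 => a4 ?_⟩
      have h1 : ee k l • v0 = 0 := congrArg Subtype.val h0
      rw [← Submodule.Quotient.mk_smul, Submodule.Quotient.mk_eq_zero, smul_eq_mul, mul_one] at h1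
      have h2 := II_ann (Un_map (cst k G) (cst_Rt k) a1) h1
      rw [alg_ee, ← D_map (cst k G) (cst_Rt k)] at h2
      have h3 : ((D (Rt ℚ G) l φ 1 : ℚ) : k) = 0 := congrFun h2 1
      exact_mod_cast h3
    refine simple_out (Q := M n) N (fun g q => Subtype.ext (quot_nil le_rfl g q.1)) fun P hP => ?_
    have h1 : M (n + 1) ≤ P.map (M n).subtype := by
      refine Submodule.span_le.2 ?_
      rintro _ ⟨l, ⟨h1, h2⟩, rfl⟩
      obtain ⟨g, l', rfl⟩ := List.exists_cons_of_length_eq_add_one h1
      obtain rfl : l'.length = n := by simpa using h1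
      refine ⟨_, hP g ⟨_, hM l' fun x hx => h2 x (List.mem_cons_of_mem _ hx)⟩, ?_⟩
      show of k G g • ee k l' • v0 - ee k l' • v0 = ee k (g :: l') • v0
      rw [ee_cons, mul_smul, sub_smul, one_smul]
    rw [eq_top_iff]
    intro q _
    obtain ⟨p, hp, e⟩ := h1 (hn q.2)
    rwa [← Subtype.ext e]
  push Not at hA
  refine caseB hS (N := N) fun B => ?_
  let E : Submodule k Q := Submodule.span k ((fun x => of k G x • v0) '' (B : Set G))
  have : Module.Finite k E := Module.Finite.span_of_finite _ (B.finite_toSet.image _)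
  let W : ℕ →o (Submodule k E)ᵒᵈ :=
    ⟨fun n => ((M n).restrictScalars k).comap E.subtype,
      monotone_nat_of_le_succ fun n x hx => hanti n hx⟩
  obtain ⟨n, hn⟩ := IsArtinian.monotone_stabilizes W
  have hW : ∀ x : E, x.1 ∈ M n → x.1 ∈ M (n + 1) := fun x hx => by
    have h1 : x ∈ ((M n).restrictScalars k).comap E.subtype := hx
    have h2 : ((M n).restrictScalars k).comap E.subtype
        = ((M (n + 1)).restrictScalars k).comap E.subtype := hn (n + 1) (Nat.le_succ n)
    rw [h2] at h1
    exact h1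
  obtain ⟨l, rfl, a2, a3⟩ : ∃ l : List G, l.length = n ∧ (∀ g ∈ l, g ∈ S) ∧
      ee k l • v0 ∉ M (n + 1) := by
    by_contra hc
    push Not at hc
    refine hA n (Submodule.span_le.2 ?_)
    rintro _ ⟨l, ⟨h1, h2⟩, rfl⟩
    exact hc l h1 h2
  have a4 : ee k l • v0 ∉ E ⊔ (M (l.length + 1)).restrictScalars k := by
    intro h1
    obtain ⟨b, hb, j, hj, e⟩ := Submodule.mem_sup.1 h1
    have h2 : b ∈ M l.length := by
      rw [eq_sub_of_add_eq e]
      exact sub_mem (hM l a2) (hanti _ hj)
    exact a3 (e ▸ add_mem (hW ⟨b, hb⟩ h2) hj)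
  obtain ⟨μ, b1, b2⟩ := Submodule.exists_dual_map_eq_bot_of_notMem a4 inferInstance
  have b3 : ∀ q ∈ E ⊔ (M (l.length + 1)).restrictScalars k, μ q = 0 := fun q hq => by
    have := Submodule.mem_map_of_mem (f := μ) hq
    rwa [b2, Submodule.mem_bot] at this
  obtain ⟨T, hT, c1, c2⟩ := exists_coef (repM k G Q) μ _ b1
  refine ⟨l.length + 1, T v0, Un_map T hT (mem_Un.2 fun g x => mem_Kl_single.2 ?_),
    (mem_Kl _ _).2 fun l' h1 h2 => ?_, fun x hx => c2 _ _ (b3 _ (Submodule.mem_sup_left
      (Submodule.subset_span ⟨x, hx, rfl⟩))), exists_word a2 ?_⟩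
  · rw [← D_replicate, D_repM]
    exact quot_nil le_rfl g _
  · rw [← D_map T hT, D_repM]
    funext x
    refine c2 _ _ (b3 _ (Submodule.mem_sup_right ?_))
    exact (M (l.length + 1)).smul_mem _ (h1 ▸ hM l' h2)
  · rwa [← D_map T hT, D_repM]

omit [CharZero k] in
/-- an irreducible nontrivial representation is not locally nilpotent -/
lemma not_nilp {V : Type} [AddCommGroup V] [Module k V] (ρ : Representation k G V) [Nontrivial V]
    (hi : ∀ W : Submodule k V, (∀ g, ∀ v ∈ W, ρ g v ∈ W) → W = ⊥ ∨ W = ⊤) (hn : ¬ ∀ g, ρ g = 1) :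
    ∃ S : Finset G, ∀ n : ℕ, ∃ l : List G, l.length = n ∧ (∀ g ∈ l, g ∈ S) ∧ D ρ l ≠ 0 := by
  classical
  obtain ⟨v, hv⟩ : ∃ v : V, ∃ g, ρ g v ≠ v := by
    by_contra h
    push Not at h
    exact hn fun g => LinearMap.ext fun v => h v g
  let W : Submodule k V := Submodule.span k (Set.range fun g => ρ g v - v)
  have hW : W = ⊤ := by
    refine (hi W fun g w hw => ?_).resolve_left fun h0 => ?_
    · induction hw using Submodule.span_induction with
      | mem x hx =>
        obtain ⟨x, rfl⟩ := hx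
        have e : ρ g (ρ x v - v) = (ρ (g * x) v - v) - (ρ g v - v) := by
          rw [map_sub, map_mul, Module.End.mul_apply]; abel
        rw [e]
        exact sub_mem (Submodule.subset_span ⟨_, rfl⟩) (Submodule.subset_span ⟨_, rfl⟩)
      | zero => simp
      | add x y _ _ hx hy => rw [map_add]; exact add_mem hx hy
      | smul c x _ hx => rw [map_smul]; exact W.smul_mem c hx
    · obtain ⟨g, hg⟩ := hv
      have : ρ g v - v ∈ W := Submodule.subset_span ⟨g, rfl⟩
      rw [h0, Submodule.mem_bot, sub_eq_zero] at this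
      exact hg this
  have h1 : v ∈ W := by rw [hW]; trivial
  obtain ⟨c, hc⟩ := Finsupp.mem_span_range_iff_exists_finsupp.1 h1
  refine ⟨c.support, fun n => ?_⟩
  by_contra h
  push Not at h
  have h2 : ∀ m, v ∈ Kl ρ c.support m → v = 0 := by
    intro m
    induction m with
    | zero => exact mem_Kl_zero.1
    | succ m ih =>
      intro hm
      refine ih ?_
      rw [← hc]
      exact Submodule.sum_mem _ fun s hs => Submodule.smul_mem _ _ (mem_Kl_succ.1 hm s hs)
  obtain ⟨g, hg⟩ := hv
  rw [h2 n ((mem_Kl n v).2 fun l a b => by rw [h l a b]; rfl)] at hg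
  exact hg (map_zero _)

end Pool.Agent.Lib.NK89
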