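import Pool.Agent.Lib.NK89.Base

/-! The resolvent of the random walk applied to a nonnegative polynomial function. -/

namespace Pool.Agent.Lib.NK89

variable {G : Type} [Group G]

/-- the mean of the differences along `S` -/
noncomputable def Tm (S : Finset G) : Module.End ℚ (G → ℚ) :=
  (S.card : ℚ)⁻¹ • ∑ s ∈ S, (Rt ℚ G s - 1)

lemma Tm_apply (S : Finset G) (q : G → ℚ) :
    Tm S q = (S.card : ℚ)⁻¹ • ∑ s ∈ S, (Rt ℚ G s q - q) := by
  simp [Tm, LinearMap.sum_apply]

lemma Tm_Kl {S : Finset G} {n : ℕ} {q : G → ℚ} (h : q ∈ Kl (Rt ℚ G) S (n + 1)) :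
    Tm S q ∈ Kl (Rt ℚ G) S n := by
  rw [Tm_apply]
  exact Submodule.smul_mem _ _ (Submodule.sum_mem _ fun s hs => mem_Kl_succ.1 h s hs)

lemma Tm_pow {S : Finset G} (n : ℕ) : ∀ q ∈ Kl (Rt ℚ G) S n, (Tm S ^ n) q = 0 := by
  induction n with
  | zero => intro q h; simpa using mem_Kl_zero.1 h
  | succ n ih => intro q h; rw [pow_succ, Module.End.mul_apply]; exact ih _ (Tm_Kl h)

lemma Tm_Un {S : Finset G} {N : G → ℕ} {q : G → ℚ} (h : q ∈ Un (Rt ℚ G) N) (j : ℕ) :
    (Tm S ^ j) q ∈ Un (Rt ℚ G) N := by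
  induction j with
  | zero => simpa using h
  | succ j ih =>
    rw [pow_succ', Module.End.mul_apply, Tm_apply]
    exact Submodule.smul_mem _ _ (Submodule.sum_mem _ fun s _ => sub_mem (Un_act ih s) ih)

lemma mean_apply {S : Finset G} (hS : S.Nonempty) (q : G → ℚ) (x : G) :
    (Tm S + 1) q x = (S.card : ℚ)⁻¹ * ∑ s ∈ S, q (x * s) := by
  have hc : (S.card : ℚ) ≠ 0 := by exact_mod_cast hS.card_pos.ne'
  rw [LinearMap.add_apply, Tm_apply]
  simp only [Module.End.one_apply, Pi.add_apply, Pi.smul_apply, Finset.sum_apply, Pi.sub_apply,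
    Rt_apply, smul_eq_mul]
  rw [Finset.sum_sub_distrib, Finset.sum_const, nsmul_eq_mul]
  field_simp
  ring

lemma mean_nonneg {S : Finset G} (hS : S.Nonempty) {q : G → ℚ} (hq : ∀ x, 0 ≤ q x) (x : G) :
    0 ≤ (Tm S + 1) q x := by
  rw [mean_apply hS]
  exact mul_nonneg (by positivity) (Finset.sum_nonneg fun s _ => hq _)

lemma pow_nonneg' {S : Finset G} (hS : S.Nonempty) (J : ℕ) : ∀ q : G → ℚ, (∀ x, 0 ≤ q x) →
    ∀ x, 0 ≤ ((Tm S + 1) ^ J) q x := by
  induction J with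
  | zero => intro q hq x; simpa using hq x
  | succ J ih =>
    intro q hq x
    rw [pow_succ, Module.End.mul_apply]
    exact ih _ (mean_nonneg hS hq) x

lemma pow_pos' {S : Finset G} (hS : S.Nonempty) {x : G} (hx : x ∈ Submonoid.closure (S : Set G)) :
    ∀ q : G → ℚ, (∀ y, 0 ≤ q y) → 0 < q x → ∃ J : ℕ, 0 < ((Tm S + 1) ^ J) q 1 := by
  induction hx using Submonoid.closure_induction_right with
  | one => intro q _ h; exact ⟨0, by simpa using h⟩
  | mul_right x _ s hs ih =>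
    intro q hq h
    have hc : (0 : ℚ) < S.card := by exact_mod_cast hS.card_pos
    obtain ⟨J, hJ⟩ := ih ((Tm S + 1) q) (mean_nonneg hS hq) (by
      rw [mean_apply hS]
      exact mul_pos (by positivity) (h.trans_le
        (Finset.single_le_sum (f := fun s => q (x * s)) (fun s _ => hq _) hs)))
    exact ⟨J + 1, by rwa [pow_succ, Module.End.mul_apply]⟩

lemma hasSum_choose (i : ℕ) : HasSum (fun J : ℕ => (J.choose i : ℝ) * (1 / 2) ^ J) 2 := by
  have h := (hasSum_choose_mul_geometric_of_norm_lt_one (𝕜 := ℝ) i (r := 1 / 2)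
    (by norm_num)).mul_right ((1 / 2) ^ i)
  rw [← hasSum_nat_add_iff' i]
  have e1 : ∑ J ∈ Finset.range i, (J.choose i : ℝ) * (1 / 2) ^ J = 0 :=
    Finset.sum_eq_zero fun J hJ => by
      rw [Nat.choose_eq_zero_of_lt (Finset.mem_range.1 hJ)]; simp
  have e2 : (1 : ℝ) / (1 - 1 / 2) ^ (i + 1) * (1 / 2) ^ i = 2 := by
    rw [show (1 : ℝ) - 1 / 2 = 1 / 2 by norm_num, pow_succ]
    field_simp
  rw [e1, sub_zero]
  rw [e2] at h
  refine h.congr_fun ?_
  intro n
  rw [pow_add, mul_assoc]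

lemma binom {T : Module.End ℚ (G → ℚ)} {q : G → ℚ} {d : ℕ} (h : (T ^ d) q = 0) (J : ℕ) :
    ((T + 1) ^ J) q 1 = ∑ i ∈ Finset.range d, (J.choose i : ℚ) * (T ^ i) q 1 := by
  have h0 : ∀ i, d ≤ i → (T ^ i) q = 0 := fun i hi => by
    obtain ⟨j, rfl⟩ := Nat.exists_eq_add_of_le' hi
    rw [pow_add, Module.End.mul_apply, h, map_zero]
  have e : ((T + 1) ^ J) q 1 = ∑ i ∈ Finset.range (J + 1), (J.choose i : ℚ) * (T ^ i) q 1 := by
    rw [(Commute.one_right T).add_pow, LinearMap.sum_apply, Finset.sum_apply]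
    refine Finset.sum_congr rfl fun i _ => ?_
    rw [one_pow, mul_one, ← nsmul_eq_mul', LinearMap.smul_apply, Pi.smul_apply, nsmul_eq_mul]
  rw [e]
  rw [Finset.sum_subset (Finset.range_mono (Nat.le_add_right (J + 1) d)),
    Finset.sum_subset (Finset.range_mono (Nat.le_add_left d (J + 1)))]
  · intro i _ hi
    rw [h0 i (by simpa using hi)]; simp
  · intro i _ hi
    rw [Nat.choose_eq_zero_of_lt (by simpa using hi)]; simp

/-- Solution of `(2 - mean) f = p` with `f 1 ≠ 0`. -/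
lemma resolvent {S : Finset G} (hS : S.Nonempty) {N : G → ℕ} {d : ℕ} {p : G → ℚ}
    (hp : ∀ x, 0 ≤ p x) (h1 : p ∈ Un (Rt ℚ G) N) (h2 : p ∈ Kl (Rt ℚ G) S d) {x : G}
    (hx : x ∈ Submonoid.closure (S : Set G)) (h3 : 0 < p x) :
    ∃ f ∈ Un (Rt ℚ G) N, f 1 ≠ 0 ∧
      ∀ y, (S.card : ℚ) * f y - ∑ s ∈ S, (f (y * s) - f y) = S.card * p y := by
  have hc : (S.card : ℚ) ≠ 0 := by exact_mod_cast hS.card_pos.ne'
  have h0 := Tm_pow d p h2
  refine ⟨∑ i ∈ Finset.range d, (Tm S ^ i) p, Submodule.sum_mem _ fun i _ => Tm_Un h1 i, ?_, ?_⟩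
  · obtain ⟨J, hJ⟩ := pow_pos' hS hx p hp h3
    have hs : HasSum (fun J : ℕ => ((((Tm S + 1) ^ J) p 1 : ℚ) : ℝ) * (1 / 2) ^ J)
        (∑ i ∈ Finset.range d, 2 * (((Tm S ^ i) p 1 : ℚ) : ℝ)) := by
      refine (hasSum_sum fun i _ => (hasSum_choose i).mul_right
        (((Tm S ^ i) p 1 : ℚ) : ℝ)).congr_fun ?_
      intro J
      rw [binom h0, Rat.cast_sum, Finset.sum_mul]
      refine Finset.sum_congr rfl fun i _ => ?_
      push_cast
      ring
    have h4 := le_hasSum hs J fun j _ => mul_nonneg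
      (by exact_mod_cast pow_nonneg' hS j p hp 1) (by positivity)
    have h5 : (0 : ℝ) < ((((Tm S + 1) ^ J) p 1 : ℚ) : ℝ) * (1 / 2) ^ J :=
      mul_pos (by exact_mod_cast hJ) (by positivity)
    intro h6
    rw [Finset.sum_apply] at h6
    rw [← Finset.mul_sum, ← Rat.cast_sum, h6] at h4
    simp only [Rat.cast_zero, mul_zero] at h4
    linarith
  · intro y
    generalize hf : ∑ i ∈ Finset.range d, (Tm S ^ i) p = f
    have e : (1 - Tm S) f = p := by
      rw [← hf, ← LinearMap.sum_apply, ← Module.End.mul_apply, mul_neg_geom_sum,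
        LinearMap.sub_apply, h0, sub_zero, Module.End.one_apply]
    rw [← e, LinearMap.sub_apply, Tm_apply]
    simp only [Module.End.one_apply, Pi.sub_apply, Pi.smul_apply, Finset.sum_apply, Rt_apply,
      smul_eq_mul]
    field_simp

/-- a function with a nonzero difference at the identity is nonzero on some word -/
lemma exists_word {S : Finset G} {φ : G → ℚ} {l : List G} (hl : ∀ g ∈ l, g ∈ S)
    (h : D (Rt ℚ G) l φ 1 ≠ 0) : ∃ x ∈ Submonoid.closure (S : Set G), φ x ≠ 0 := by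
  by_contra hc
  push Not at hc
  have key : ∀ l : List G, (∀ g ∈ l, g ∈ S) → ∀ x ∈ Submonoid.closure (S : Set G),
      D (Rt ℚ G) l φ x = 0 := by
    intro l
    induction l with
    | nil => intro _ x hx; simpa using hc x hx
    | cons g l ih =>
      intro hl x hx
      have ih' := ih fun y hy => hl y (List.mem_cons_of_mem _ hy)
      rw [D_cons, Module.End.mul_apply, LinearMap.sub_apply, Pi.sub_apply, Rt_apply,
        Module.End.one_apply, ih' x hx,
        ih' _ (mul_mem hx (Submonoid.subset_closure (hl g List.mem_cons_self))), sub_zero]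
  exact h (key l hl 1 (one_mem _))

end Pool.Agent.Lib.NK89
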